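import Mathlib

open Finset

namespace Pool.Agent.Results.MP_8312d7_nt.Fails

def bin (a : ℚ) (k : ℕ) : ℚ := (∏ i ∈ range k, (a - i)) / k.factorial

def Cg (p m : ℕ) (u v : ℚ) : Prop := (p : ℤ) ^ m ∣ (u - v).num

def S1 (p : ℕ) : ℚ := ∑ k ∈ range p, bin (-1 / 4) k * bin (-1 / 2) k / 4 ^ k
def S2 (p : ℕ) : ℚ := ∑ k ∈ range p, bin (-1 / 2) k * bin (-1 / 6) k * 2 ^ k

theorem result : ¬ ∀ p : ℕ, p.Prime → p % 4 = 1 → ∀ x y : ℤ, (p : ℤ) = x ^ 2 + y ^ 2 → Odd x →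
    Cg p 2 (S1 p) (jacobiSym p 3 * S2 p) ∧
    (p % 12 = 1 → Cg p 2 (S1 p) ((-1) ^ (((p : ℤ) - 1) / 4 + (x + 1) / 2) * (2 * x - p / (2 * x)))) ∧
    (p % 12 = 5 → Cg p 2 (S1 p) (2 * y - p / (2 * y)) ∨ Cg p 2 (S1 p) (-(2 * y - p / (2 * y)))) := by
  intro h
  have h1 := (h 37 (by norm_num) (by norm_num) 1 6 (by norm_num) (by decide)).2.1 rfl
  revert h1
  unfold Cg S1 bin
  decide +kernel

end Pool.Agent.Results.MP_8312d7_nt.Fails
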